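import Pool.Agent.H363Z.UndecB

set_option autoImplicit false

open Pool.Agent.H363Z

/-- There is a fixed finite semigroup presentation `P` for which the set of base words `w` with
`D(P, w)` nontrivial is not recursive. -/
theorem Pool.Agent.Results.MP_6c430b_al.ATrivialityUndecidable.result :
    ∃ (k : ℕ) (P : Pres (Fin k)), P.rel.Finite ∧ (∀ p ∈ P.rel, (p.2, p.1) ∉ P.rel) ∧
      ¬ ComputablePred (fun w : List (Fin k) => w ≠ [] ∧ Nontrivial (DiagramGroup P w)) :=
  Und.triv_undec
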